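import Pool.Agent.Y372.UF.Stm

/-! Project UF of helper372, task COEF. -/

set_option autoImplicit false

open Polynomial

namespace Pool.Agent.Y450.UF

open Pool.Agent.Y372.UF

theorem dU (n : ℤ) (t : ℝ) :
    (derivative (Chebyshev.U ℝ n)).eval (Real.cos t) * Real.sin t ^ 2 =
      (Chebyshev.U ℝ n).eval (Real.cos t) * Real.cos t - ((n : ℝ) + 1) * Real.cos (((n : ℝ) + 1) * t) := by
  have h1 : HasDerivAt (fun s => (Chebyshev.U ℝ n).eval (Real.cos s) * Real.sin s)
      (((derivative (Chebyshev.U ℝ n)).eval (Real.cos t) * (-Real.sin t)) * Real.sin t +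
        (Chebyshev.U ℝ n).eval (Real.cos t) * Real.cos t) t := by
    have ha := ((Chebyshev.U ℝ n).hasDerivAt (Real.cos t)).comp t (Real.hasDerivAt_cos t)
    exact ha.mul (Real.hasDerivAt_sin t)
  have h2 : HasDerivAt (fun s => Real.sin (((n : ℝ) + 1) * s))
      (Real.cos (((n : ℝ) + 1) * t) * ((n : ℝ) + 1)) t := by
    have hb : HasDerivAt (fun s : ℝ => ((n : ℝ) + 1) * s) ((n : ℝ) + 1) t := by
      simpa using (hasDerivAt_id t).const_mul ((n : ℝ) + 1)
    exact (Real.hasDerivAt_sin _).comp t hb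
  have e : (fun s => (Chebyshev.U ℝ n).eval (Real.cos s) * Real.sin s) =
      fun s => Real.sin (((n : ℝ) + 1) * s) := by
    funext s
    exact Chebyshev.U_real_cos s n
  rw [e] at h1
  have := h1.unique h2
  linarith

theorem t_COEF : S_COEF := by
  intro N hN j hj
  rw [Finset.mem_Icc] at hj
  obtain ⟨M, hM⟩ : ∃ M : ℝ, M = (N : ℝ) + 2 := ⟨_, rfl⟩
  have hN1 : (1 : ℝ) ≤ N := by exact_mod_cast hN
  have hM3 : 3 ≤ M := by linarith
  obtain ⟨p, hp⟩ : ∃ p : ℝ, p = Real.pi / M := ⟨_, rfl⟩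
  have hpM : M * p = Real.pi := by rw [hp]; field_simp
  have e1 : Real.pi / ((N : ℝ) + 2) = p := by rw [hp, hM]
  have e2 : ph (N + 2) = p := by
    unfold ph
    rw [hp, hM]
    push_cast
    rfl
  have p0 : 0 < p := by rw [hp]; positivity
  have p1 : p < Real.pi / 2 := by
    rw [hp, div_lt_div_iff₀ (by linarith) (by norm_num)]
    have := Real.pi_pos
    nlinarith
  have hs : 0 < Real.sin p := Real.sin_pos_of_pos_of_lt_pi p0 (by linarith [Real.pi_pos])
  have hc : 0 < Real.cos p := Real.cos_pos_of_mem_Ioo ⟨by linarith [Real.pi_pos], p1⟩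
  have hjr : (1 : ℝ) ≤ j := by exact_mod_cast hj.1
  have U1 := Chebyshev.U_real_cos p ((N : ℤ) - (j : ℤ) + 1)
  have D1 := dU ((N : ℤ) - (j : ℤ) + 1) p
  have U2 := Chebyshev.U_real_cos p ((j : ℤ) - 1)
  have U3 := Chebyshev.U_real_cos p (N : ℤ)
  have D3 := dU (N : ℤ) p
  have a1 : ((((N : ℤ) - (j : ℤ) + 1 : ℤ) : ℝ) + 1) = M - j := by rw [hM]; push_cast; ring
  have a2 : ((((j : ℤ) - 1 : ℤ) : ℝ) + 1) = j := by push_cast; ring
  have a3 : (((N : ℤ) : ℝ) + 1) = M - 1 := by rw [hM]; push_cast; ring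
  have b1 : (M - j) * p = Real.pi - j * p := by rw [← hpM]; ring
  have b3 : (M - 1) * p = Real.pi - p := by rw [← hpM]; ring
  rw [a1, b1] at U1 D1
  rw [a2] at U2
  rw [a3, b3] at U3 D3
  rw [Real.sin_pi_sub] at U1 U3
  rw [Real.cos_pi_sub] at D1 D3
  rw [e1]
  unfold ac
  rw [e2]
  have a4 : ((N + 2 : ℕ) : ℝ) = M := by rw [hM]; push_cast; ring
  rw [a4]
  set A := (derivative (Chebyshev.U ℝ ((N : ℤ) - (j : ℤ) + 1))).eval (Real.cos p)
  set B := (Chebyshev.U ℝ ((j : ℤ) - 1)).eval (Real.cos p)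
  set D := (derivative (Chebyshev.U ℝ (N : ℤ))).eval (Real.cos p)
  set u1 := (Chebyshev.U ℝ ((N : ℤ) - (j : ℤ) + 1)).eval (Real.cos p)
  set u3 := (Chebyshev.U ℝ (N : ℤ)).eval (Real.cos p)
  set s := Real.sin p
  set c := Real.cos p
  set S := Real.sin (j * p)
  set Cc := Real.cos (j * p)
  have hu3 : u3 = 1 := by
    have : (u3 - 1) * s = 0 := by linarith
    rcases mul_eq_zero.1 this with h | h
    · linarith
    · exact absurd h hs.ne'
  have hD : D * s ^ 2 = M * c := by rw [D3, hu3]; ring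
  have hA : A * s ^ 3 = S * c + (M - j) * Cc * s := by
    have : A * s ^ 3 = (A * s ^ 2) * s := by ring
    rw [this, D1]
    linear_combination c * U1
  have hD0 : D ≠ 0 := by
    intro h
    rw [h, zero_mul] at hD
    have : 0 < M * c := mul_pos (by linarith) hc
    linarith
  rw [div_eq_div_iff hD0 (by positivity)]
  have e3 : s ^ 4 * (A * B * (M * c * s ^ 2)) = s ^ 4 * (S * (S * c + (M - j) * Cc * s) * D) := by
    calc s ^ 4 * (A * B * (M * c * s ^ 2)) = (A * s ^ 3) * (B * s) * (M * c) * s ^ 2 := by ring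
      _ = (S * c + (M - j) * Cc * s) * S * (D * s ^ 2) * s ^ 2 := by rw [hA, U2, hD]
      _ = _ := by ring
  exact mul_left_cancel₀ (pow_ne_zero 4 hs.ne') e3

end Pool.Agent.Y450.UF
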