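import Pool.Agent.Y372.UF.Stm

/-! Project UF of helper372, task RC: root counting for a third derivative. -/

set_option autoImplicit false

open Polynomial

namespace Pool.Agent.Y450.UF

open Pool.Agent.Y372.UF

/-- Rolle's theorem for a chain of roots. -/
theorem rolle (g : ℝ[X]) (b : ℝ) (m : ℕ) (z : Fin (m + 1) → ℝ) (hz : StrictMono z)
    (h0 : ∀ i, g.eval (z i) = 0) (hb : ∀ i, z i ≤ b) :
    ∃ z' : Fin m → ℝ, StrictMono z' ∧ (∀ i, (derivative g).eval (z' i) = 0) ∧ ∀ i, z' i ≤ b := by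
  have key : ∀ i : Fin m, ∃ c ∈ Set.Ioo (z i.castSucc) (z i.succ), (derivative g).eval c = 0 := by
    intro i
    exact exists_hasDerivAt_eq_zero (f := fun x => g.eval x) (f' := fun x => (derivative g).eval x)
      (hz (Fin.castSucc_lt_succ (i := i))) g.continuous.continuousOn
      (by simp only [h0]) (fun x _ => g.hasDerivAt x)
  choose z' hz' h1 using key
  refine ⟨z', ?_, h1, fun i => (hz' i).2.le.trans (hb _)⟩
  intro i j hij
  have h2 : i.succ ≤ j.castSucc := by
    rw [Fin.le_def, Fin.val_succ, Fin.val_castSucc]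
    exact hij
  exact (hz' i).2.trans_le ((hz.monotone h2).trans (hz' j).1.le)

theorem chain3 (f : ℝ[X]) (k : ℕ) (z : Fin k → ℝ) (b : ℝ) (hz : StrictMono z)
    (h0 : ∀ i, f.eval (z i) = 0) (hb : ∀ i, z i ≤ b) :
    ∃ z' : Fin (k - 3) → ℝ, StrictMono z' ∧ (∀ i, (derivative^[3] f).eval (z' i) = 0) ∧
      ∀ i, z' i ≤ b := by
  rcases lt_or_ge k 3 with h | h
  · have e : k - 3 = 0 := by omega
    rw [e]
    exact ⟨fun i => i.elim0, fun i => i.elim0, fun i => i.elim0, fun i => i.elim0⟩
  · obtain ⟨m, rfl⟩ : ∃ m, k = m + 3 := ⟨k - 3, by omega⟩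
    obtain ⟨z1, a1, a2, a3⟩ := rolle f b (m + 2) z hz h0 hb
    obtain ⟨z2, b1, b2, b3⟩ := rolle _ b (m + 1) z1 a1 a2 a3
    obtain ⟨z3, c1, c2, c3⟩ := rolle _ b m z2 b1 b2 b3
    exact ⟨z3, c1, c2, c3⟩

theorem t_RC : S_RC := by
  intro f k z b hz h0 hb hdeg hk hlead hPb x y hbx hxy hPx
  by_contra hPy
  push Not at hPy
  obtain ⟨z', hz', hr, hzb⟩ := chain3 f k z b hz h0 hb
  set P := derivative^[3] f with hP
  -- the degree
  have hle : P.natDegree ≤ k - 1 := by
    have h3 : P.natDegree ≤ f.natDegree - 3 := natDegree_iterate_derivative f 3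
    rw [hdeg] at h3
    omega
  have hcoef : 0 < P.coeff (k - 1) := by
    rw [hP, coeff_iterate_derivative, nsmul_eq_mul]
    have e : k - 1 + 3 = k + 2 := by omega
    rw [e, ← hdeg]
    refine mul_pos ?_ hlead
    have : 0 < (f.natDegree).descFactorial 3 := by
      rw [Nat.pos_iff_ne_zero, Ne, Nat.descFactorial_eq_zero_iff_lt]
      omega
    exact_mod_cast this
  have hnat : P.natDegree = k - 1 :=
    le_antisymm hle (le_natDegree_of_ne_zero hcoef.ne')
  have hP0 : P ≠ 0 := by
    rintro h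
    rw [h, coeff_zero] at hcoef
    exact lt_irrefl _ hcoef
  have hdP : 0 < P.degree := by
    rw [degree_eq_natDegree hP0, hnat]
    exact_mod_cast (by omega : 0 < k - 1)
  have hlc : 0 ≤ P.leadingCoeff := by
    rw [leadingCoeff, hnat]; exact hcoef.le
  obtain ⟨Y, hY1, hY2⟩ : ∃ Y, y < Y ∧ 0 < P.eval Y := by
    have ht := P.tendsto_atTop_of_leadingCoeff_nonneg hdP hlc
    obtain ⟨Y, h1, h2⟩ := ((Filter.eventually_gt_atTop y).and
      (ht.eventually (Filter.eventually_gt_atTop 0))).exists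
    exact ⟨Y, h1, h2⟩
  have hbx' : b < x := by
    rcases hbx.lt_or_eq with h | h
    · exact h
    · rw [← h] at hPx; exact absurd hPx (not_lt.2 hPb.le)
  have cP : ∀ s, ContinuousOn (fun t => P.eval t) s := fun s => P.continuous.continuousOn
  obtain ⟨r1, hr1, e1⟩ := intermediate_value_Ioo hbx'.le (cP _) ⟨hPb, hPx⟩
  obtain ⟨r2, hr2, e2⟩ := intermediate_value_Ioo' hxy.le (cP _) ⟨hPy, hPx⟩
  obtain ⟨r3, hr3, e3⟩ := intermediate_value_Ioo hY1.le (cP _) ⟨hPy, hY2⟩
  simp only at e1 e2 e3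
  classical
  have hsub : (Finset.univ.image z') ∪ {r1, r2, r3} ⊆ P.roots.toFinset := by
    intro t ht
    rw [Multiset.mem_toFinset, mem_roots hP0, IsRoot.def]
    rw [Finset.mem_union, Finset.mem_image] at ht
    rcases ht with ⟨i, -, rfl⟩ | ht
    · exact hr i
    · simp only [Finset.mem_insert, Finset.mem_singleton] at ht
      rcases ht with rfl | rfl | rfl
      · exact e1
      · exact e2
      · exact e3
  have hdis : Disjoint (Finset.univ.image z') ({r1, r2, r3} : Finset ℝ) := by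
    rw [Finset.disjoint_left]
    intro t ht ht'
    rw [Finset.mem_image] at ht
    obtain ⟨i, -, rfl⟩ := ht
    have h1 := hzb i
    simp only [Finset.mem_insert, Finset.mem_singleton] at ht'
    rcases ht' with h | h | h
    · linarith [hr1.1]
    · linarith [hr2.1]
    · linarith [hr3.1]
  have h3 : ({r1, r2, r3} : Finset ℝ).card = 3 := by
    rw [Finset.card_eq_three]
    refine ⟨r1, r2, r3, ?_, ?_, ?_, rfl⟩
    · exact (hr1.2.trans hr2.1).ne
    · exact (hr1.2.trans (hxy.trans hr3.1)).ne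
    · exact (hr2.2.trans hr3.1).ne
  have hcard : k - 3 + 3 ≤ P.natDegree := by
    calc k - 3 + 3 = ((Finset.univ.image z') ∪ {r1, r2, r3}).card := by
          rw [Finset.card_union_of_disjoint hdis, h3,
            Finset.card_image_of_injective _ hz'.injective, Finset.card_univ, Fintype.card_fin]
      _ ≤ P.roots.toFinset.card := Finset.card_le_card hsub
      _ ≤ Multiset.card P.roots := Multiset.toFinset_card_le _
      _ ≤ P.natDegree := card_roots' P
  omega

end Pool.Agent.Y450.UF
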